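import Pool.Agent.KK.StmtsE2

/-!
# Squad KK, row E_CRS: `CrsStmt` from `StmtE25`
-/

set_option autoImplicit false

namespace Pool.Agent.KK.E.H94

open Pool.Agent.KK Pool.Agent.KK.E

section

variable {V : Type} [Fintype V] [DecidableEq V]

/-- from a counting bound to a density bound -/
theorem dens_le {ι : Type} [Fintype ι] (c : ι → Finset V) (P : (ι → V) → Prop) (γ : ℝ)
    (hγ : 0 ≤ γ) (hn : 0 < Fintype.card V)
    (hc : ∀ i, (Fintype.card V : ℝ) / 3 ≤ (c i).card)
    (hcount : ({f : ι → V | (∀ i, f i ∈ c i) ∧ P f}.ncard : ℝ) ≤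
      γ * (Fintype.card V : ℝ) ^ Fintype.card ι) :
    dens c P ≤ γ * 3 ^ Fintype.card ι := by
  have hn' : (0 : ℝ) < Fintype.card V := by exact_mod_cast hn
  have h1 : ((Fintype.card V : ℝ) / 3) ^ Fintype.card ι ≤ ∏ i, ((c i).card : ℝ) := by
    have h0 : ((Fintype.card V : ℝ) / 3) ^ Fintype.card ι =
        ∏ _i : ι, ((Fintype.card V : ℝ) / 3) := by
      rw [Finset.prod_const, Finset.card_univ]
    rw [h0]
    exact Finset.prod_le_prod (fun _ _ => by positivity) fun i _ => hc i
  have h2 : (0 : ℝ) < ((Fintype.card V : ℝ) / 3) ^ Fintype.card ι := by positivity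
  unfold dens
  rw [div_le_iff₀ (h2.trans_le h1)]
  calc ({f : ι → V | (∀ i, f i ∈ c i) ∧ P f}.ncard : ℝ)
      ≤ γ * (Fintype.card V : ℝ) ^ Fintype.card ι := hcount
    _ = γ * 3 ^ Fintype.card ι * ((Fintype.card V : ℝ) / 3) ^ Fintype.card ι := by
        rw [div_pow]
        field_simp
    _ ≤ γ * 3 ^ Fintype.card ι * ∏ i, ((c i).card : ℝ) :=
        mul_le_mul_of_nonneg_left h1 (by positivity)

theorem mem_sd (X : Finset V) (b : Bool) (v : V) : v ∈ sd X b ↔ (v ∈ X ↔ b = true) := by
  unfold sd
  cases b <;> simp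

/-- the words: from the canonical states to `Alm` -/
theorem alm_of (d s t₀ : ℕ) (X : Finset V) (w : List Bool) (hw : w.length = d + 1)
    (S : Set (List V)) (γ : ℝ) (hγ : 0 ≤ γ) (hn : 0 < Fintype.card V)
    (hX : ∀ b, (Fintype.card V : ℝ) / 3 ≤ (sd X b).card)
    (hwt : ∀ i (hi : i < w.length), w[i] = true ↔ (t₀ + i) % (d + 2) < s)
    (hcount : ({z : Sta V d | z ∈ can X d s ∧ List.ofFn z.1 ∉ S}.ncard : ℝ) ≤
        γ * (Fintype.card V : ℝ) ^ (d + 1)) :
    Alm X w S (γ * 3 ^ (d + 2)) := by
  unfold Alm
  have h1 : dens (fun i : Fin w.length => sd X (w.get i)) (fun a => List.ofFn a ∉ S) ≤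
      γ * 3 ^ Fintype.card (Fin w.length) := by
    apply dens_le _ _ γ hγ hn (fun i => hX _)
    have hcw : Fintype.card (Fin w.length) = d + 1 := by rw [Fintype.card_fin, hw]
    rw [hcw]
    refine le_trans ?_ hcount
    have h2 : {f : Fin w.length → V | (∀ i, f i ∈ sd X (w.get i)) ∧ List.ofFn f ∉ S}.ncard ≤
        {z : Sta V d | z ∈ can X d s ∧ List.ofFn z.1 ∉ S}.ncard := by
      refine Set.ncard_le_ncard_of_injOn
        (fun f => ((fun i : Fin (d + 1) => f (Fin.cast hw.symm i)), (t₀ : ZMod (d + 2)))) ?_ ?_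
        (Set.toFinite _)
      · rintro f ⟨hf1, hf2⟩
        refine ⟨?_, ?_⟩
        · intro i
          change f (Fin.cast hw.symm i) ∈ X ↔
            ((t₀ : ZMod (d + 2)) + ((i : ℕ) : ZMod (d + 2))).val < s
          rw [(mem_sd X _ _).1 (hf1 (Fin.cast hw.symm i)), ← Nat.cast_add, ZMod.val_natCast,
            ← hwt i (by rw [hw]; exact i.2)]
          rfl
        · change List.ofFn (fun i : Fin (d + 1) => f (Fin.cast hw.symm i)) ∉ S
          rw [List.ofFn_congr hw f] at hf2
          exact hf2
      · intro f _ g _ hfg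
        have h3 := (Prod.mk.inj hfg).1
        funext i
        have h4 := congrFun h3 (Fin.cast hw i)
        exact h4
    exact_mod_cast h2
  refine h1.trans ?_
  rw [Fintype.card_fin, hw]
  have : (3 : ℝ) ^ (d + 1) ≤ 3 ^ (d + 2) := pow_le_pow_right₀ (by norm_num) (by omega)
  exact mul_le_mul_of_nonneg_left this hγ

theorem low_get (p q i : ℕ) (hi : i < (low p q).length) :
    (low p q)[i] = true ↔ (p + 2 + i) % (p + q + 2) < p := by
  have hl : (low p q).length = q + p + 1 := by simp [low]; omega
  rw [hl] at hi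
  unfold low
  rcases lt_or_ge i q with h | h
  · have e1 : (p + 2 + i) % (p + q + 2) = p + 2 + i := Nat.mod_eq_of_lt (by omega)
    rw [e1]
    rw [List.getElem_append_left (by simp; omega), List.getElem_append_left (by simpa using h),
      List.getElem_replicate]
    simp
    omega
  · rcases lt_or_ge i (q + p) with h' | h'
    · have e1 : (p + 2 + i) % (p + q + 2) = i - q := by
        rw [show p + 2 + i = (i - q) + (p + q + 2) by omega, Nat.add_mod_right]
        exact Nat.mod_eq_of_lt (by omega)
      rw [e1]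
      rw [List.getElem_append_left (by simpa using h'),
        List.getElem_append_right (by simpa using h), List.getElem_replicate]
      simp
      omega
    · have e1 : (p + 2 + i) % (p + q + 2) = p := by
        rw [show p + 2 + i = p + (p + q + 2) by omega, Nat.add_mod_right]
        exact Nat.mod_eq_of_lt (by omega)
      rw [e1]
      rw [List.getElem_append_right (by simpa using h')]
      simp

theorem high_get (p q i : ℕ) (hi : i < (high p q).length) :
    (high p q)[i] = true ↔ (p + 1 + i) % (p + q + 2) < p + 2 := by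
  have hl : (high p q).length = q + p + 1 := by simp [high]
  rw [hl] at hi
  unfold high
  rcases i with _ | i
  · have e1 : (p + 1 + 0) % (p + q + 2) = p + 1 := Nat.mod_eq_of_lt (by omega)
    rw [e1]
    simp
  · rw [List.getElem_cons_succ]
    rcases lt_or_ge i q with h | h
    · have e1 : (p + 1 + (i + 1)) % (p + q + 2) = p + 1 + (i + 1) :=
        Nat.mod_eq_of_lt (by omega)
      rw [e1]
      rw [List.getElem_append_left (by simpa using h), List.getElem_replicate]
      simp
      omega
    · have e1 : (p + 1 + (i + 1)) % (p + q + 2) = i - q := by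
        rw [show p + 1 + (i + 1) = (i - q) + (p + q + 2) by omega, Nat.add_mod_right]
        exact Nat.mod_eq_of_lt (by omega)
      rw [e1]
      rw [List.getElem_append_right (by simpa using h), List.getElem_replicate]
      simp
      omega

end

theorem e_crs : StmtECRS := by
  intro h25 d hd
  refine ⟨3 * (d + 2) - 2, fun C => ?_⟩
  choose e he n h using h25
  have hne : (Finset.Icc 1 (d + 1)).Nonempty := ⟨1, by simp⟩
  obtain ⟨m, hm⟩ : ∃ m : ℝ, m = (Finset.Icc 1 (d + 1)).inf' hne
    (fun j => e (j - 1) (d + 1 - j) C) := ⟨_, rfl⟩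
  have hm0 : 0 < m := by
    rw [hm, Finset.lt_inf'_iff]
    intro j _
    exact he _ _ _
  obtain ⟨γ, hγ⟩ : ∃ γ : ℝ, γ = min (m / 3 ^ (d + 2)) (1 / 6) := ⟨_, rfl⟩
  have hγ0 : 0 < γ := by
    rw [hγ]
    exact lt_min (by positivity) (by norm_num)
  have hγ1 : γ * 3 ^ (d + 2) ≤ m := by
    have : γ ≤ m / 3 ^ (d + 2) := hγ ▸ min_le_left _ _
    exact (le_div_iff₀ (by positivity)).1 this
  have hγ6 : γ ≤ 1 / 6 := hγ ▸ min_le_right _ _
  refine ⟨γ, max 1 ((Finset.Icc 1 (d + 1)).sup fun j => n (j - 1) (d + 1 - j) C), hγ0, ?_⟩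
  intro V _ _ H X j S T hn hU hDi hj1 hj2 hX htd hS hT
  have hjm : j ∈ Finset.Icc 1 (d + 1) := Finset.mem_Icc.2 ⟨hj1, hj2⟩
  have hn1 : 0 < Fintype.card V := lt_of_lt_of_le Nat.zero_lt_one ((le_max_left _ _).trans hn)
  have hnj : n (j - 1) (d + 1 - j) C ≤ Fintype.card V :=
    (Finset.le_sup (f := fun j => n (j - 1) (d + 1 - j) C) hjm).trans ((le_max_right _ _).trans hn)
  have hmj : m ≤ e (j - 1) (d + 1 - j) C := by
    rw [hm]
    exact Finset.inf'_le _ hjm
  obtain ⟨p, hp⟩ : ∃ p, p = j - 1 := ⟨_, rfl⟩
  obtain ⟨q, hq⟩ : ∃ q, q = d + 1 - j := ⟨_, rfl⟩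
  rw [← hp, ← hq] at hnj hmj
  have hj : j = p + 1 := by omega
  have hd' : d = p + q := by omega
  subst hd'
  subst hj
  have hn' : (0 : ℝ) < Fintype.card V := by exact_mod_cast hn1
  have hXl := (abs_le.1 hX).1
  have hXr := (abs_le.1 hX).2
  have hγn : γ * Fintype.card V ≤ Fintype.card V / 6 := by nlinarith
  have hXc : ((Xᶜ).card : ℝ) = Fintype.card V - X.card := by
    rw [Finset.card_compl, Nat.cast_sub (Finset.card_le_univ X)]
  have hsd : ∀ b, (Fintype.card V : ℝ) / 3 ≤ (sd X b).card := by
    intro b
    cases b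
    · change (Fintype.card V : ℝ) / 3 ≤ ((Xᶜ).card : ℝ)
      rw [hXc]
      linarith
    · change (Fintype.card V : ℝ) / 3 ≤ (X.card : ℝ)
      linarith
  have h3 : (1 : ℝ) ≤ 3 ^ (p + q + 2) := one_le_pow₀ (by norm_num)
  have hγm : γ ≤ e p q C := by
    have : γ ≤ γ * 3 ^ (p + q + 2) := le_mul_of_one_le_right hγ0.le h3
    linarith
  -- the three hypotheses of E25
  have hD : D H X ∅ (p + 1) (q + 1) ≤ e p q C := by
    refine le_trans ?_ hmj
    refine le_trans ?_ hγ1
    unfold D
    have hcard : Fintype.card (Fin (p + 1) ⊕ Fin (q + 1)) = p + q + 2 := by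
      rw [Fintype.card_sum, Fintype.card_fin, Fintype.card_fin]
      omega
    have h4 := dens_le (lets X (p + 1) (q + 1))
      (fun f => ∅ ∪ Finset.univ.image f ∈ H) γ hγ0.le hn1 (by
        intro i
        rcases i with i | i
        · exact hsd true
        · exact hsd false) (by
        rw [hcard]
        refine le_trans ?_ htd
        have e0 : Fin (p + q + 2) ≃ Fin (p + 1) ⊕ Fin (q + 1) :=
          (finCongr (by omega)).trans finSumFinEquiv.symm
        have h5 : {f : Fin (p + 1) ⊕ Fin (q + 1) → V |
            (∀ i, f i ∈ lets X (p + 1) (q + 1) i) ∧ ∅ ∪ Finset.univ.image f ∈ H}.ncard ≤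
            td H (p + q + 2) X (p + 1) := by
          unfold td
          refine Set.ncard_le_ncard_of_injOn (fun f => f ∘ e0) ?_ ?_ (Set.toFinite _)
          · rintro f ⟨hf1, hf2⟩
            refine ⟨?_, ?_⟩
            · have e1 : Finset.univ.image (f ∘ e0) = Finset.univ.image f := by
                rw [← Finset.image_image]
                congr 1
                exact Finset.image_univ_equiv e0
              rw [e1]
              rwa [Finset.empty_union] at hf2
            · unfold xc
              have e2 : (Finset.univ.filter fun i => (f ∘ e0) i ∈ X) =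
                  (Finset.univ.filter fun i => f i ∈ X).map e0.symm.toEmbedding := by
                ext i
                simp only [Finset.mem_filter, Finset.mem_univ, true_and, Finset.mem_map,
                  Equiv.coe_toEmbedding, Function.comp_apply]
                constructor
                · intro hi
                  exact ⟨e0 i, hi, e0.symm_apply_apply i⟩
                · rintro ⟨a, ha, rfl⟩
                  rwa [e0.apply_symm_apply]
              rw [e2, Finset.card_map]
              have e3 : (Finset.univ.filter fun i => f i ∈ X) =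
                  (Finset.univ : Finset (Fin (p + 1))).map Function.Embedding.inl := by
                ext i
                simp only [Finset.mem_filter, Finset.mem_univ, true_and, Finset.mem_map,
                  Function.Embedding.inl_apply]
                rcases i with i | i
                · have h6 : f (Sum.inl i) ∈ X := hf1 (Sum.inl i)
                  exact ⟨fun _ => ⟨i, rfl⟩, fun _ => h6⟩
                · have h6 : f (Sum.inr i) ∈ Xᶜ := hf1 (Sum.inr i)
                  rw [Finset.mem_compl] at h6
                  constructor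
                  · intro h7
                    exact absurd h7 h6
                  · rintro ⟨a, ha⟩
                    exact absurd ha (by simp)
              rw [e3, Finset.card_map, Finset.card_univ, Fintype.card_fin]
          · intro f _ g _ hfg
            exact e0.surjective.injective_comp_right hfg
        exact_mod_cast h5)
    rw [hcard] at h4
    exact h4
  have hlow : Alm X (low p q) S (e p q C) := by
    have h4 := alm_of (p + q) p (p + 2) X (low p q) (by simp [low]; omega) S γ hγ0.le hn1 hsd
      (fun i hi => low_get p q i hi) (by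
        have e1 : p + 1 - 1 = p := by omega
        rw [e1] at hS
        exact hS)
    unfold Alm at h4 ⊢
    linarith
  have hhigh : Alm X (high p q) T (e p q C) := by
    have h4 := alm_of (p + q) (p + 2) (p + 1) X (high p q) (by simp [high]; omega) T γ hγ0.le
      hn1 hsd (fun i hi => high_get p q i hi) hT
    unfold Alm at h4 ⊢
    linarith
  have hres := h p q C V H X hnj hU hDi
    (hX.trans (mul_le_mul_of_nonneg_right hγm hn'.le)) hD S T hlow hhigh
  have hcr : ∀ (M F : Finset V) (l : List V), Cr H (p + q + 2) S T M F l →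
      Seg H (p + q + 2) S T l ∧ l.length ≤ 3 * (p + q + 2) - 2 ∧ ∀ v ∈ l, v ∉ F := by
    rintro M F l ⟨h1, h2, h3, h4, -, h5⟩
    refine ⟨⟨h1, by omega, h3, ?_⟩, h2.le, ?_⟩
    · have e1 : l.length - (p + q + 2 - 1) = 2 * (p + q + 2) - 1 := by omega
      rw [e1]
      exact h4
    · intro v hv hF
      exact Finset.disjoint_left.1 h5 (List.mem_toFinset.2 hv) hF
  rcases hres with ⟨Z, hZ, hZ2⟩ | h1
  · right
    refine ⟨Z, hZ.ge, fun z hz W hW hzW => ?_⟩
    obtain ⟨l, hl⟩ := hZ2 z hz W hW hzW
    exact ⟨l, hcr _ _ _ hl⟩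
  · left
    intro W hW
    obtain ⟨l, hl⟩ := h1 W hW
    exact ⟨l, hcr _ _ _ hl⟩

end Pool.Agent.KK.E.H94
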