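import Pool.Agent.KK.StmtsE

/-!
# Squad KK, row E_BLO: blow-up with two copies of every vertex
-/

set_option autoImplicit false

namespace Pool.Agent.KK.E.H94

open Pool.Agent.KK Pool.Agent.KK.E

section

variable {V : Type} [Fintype V] [DecidableEq V]

theorem dens_sum {ι : Type} [Fintype ι] [DecidableEq ι] (c : ι → Finset V) (P : (ι → V) → Prop)
    [DecidablePred P] :
    dens c P = (∑ f ∈ Fintype.piFinset c, if P f then (1 : ℝ) else 0) /
      ∏ i, ((c i).card : ℝ) := by
  unfold dens
  congr 1
  have h : {f : ι → V | (∀ i, f i ∈ c i) ∧ P f} =
      (((Fintype.piFinset c).filter P : Finset (ι → V)) : Set (ι → V)) := by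
    ext f
    simp [Fintype.mem_piFinset]
  rw [h, Set.ncard_coe_finset, Finset.card_filter]
  push_cast
  rfl

theorem prod_pos' {ι : Type} [Fintype ι] (c : ι → Finset V) (hc : ∀ i, (c i).Nonempty) :
    (0 : ℝ) < ∏ i, ((c i).card : ℝ) :=
  Finset.prod_pos fun i _ => by exact_mod_cast (hc i).card_pos

theorem card_box {ι : Type} [Fintype ι] [DecidableEq ι] (c : ι → Finset V) :
    ((Fintype.piFinset c).card : ℝ) = ∏ i, ((c i).card : ℝ) := by
  rw [Fintype.card_piFinset]
  push_cast
  rfl

/-- resampling one coordinate -/
theorem resample {ι : Type} [Fintype ι] [DecidableEq ι] (c : ι → Finset V) (j : ι)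
    (F : (ι → V) → ℝ) :
    ∑ g ∈ Fintype.piFinset c, ∑ z ∈ c j, F (Function.update g j z) =
      (c j).card * ∑ g ∈ Fintype.piFinset c, F g := by
  rw [← Finset.sum_product']
  have h1 : ∑ x ∈ Fintype.piFinset c ×ˢ c j, F (Function.update x.1 j x.2) =
      ∑ x ∈ Fintype.piFinset c ×ˢ c j, F x.1 := by
    have hmem : ∀ x ∈ Fintype.piFinset c ×ˢ c j,
        (Function.update x.1 j x.2, x.1 j) ∈ Fintype.piFinset c ×ˢ c j := by
      intro x hx
      rw [Finset.mem_product, Fintype.mem_piFinset] at hx ⊢
      refine ⟨fun i => ?_, hx.1 j⟩
      by_cases hi : i = j
      · subst hi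
        change Function.update x.1 i x.2 i ∈ c i
        rw [Function.update_self]
        exact hx.2
      · change Function.update x.1 j x.2 i ∈ c i
        rw [Function.update_of_ne hi]
        exact hx.1 i
    have hinv : ∀ x ∈ Fintype.piFinset c ×ˢ c j,
        (Function.update (Function.update x.1 j x.2) j (x.1 j), (Function.update x.1 j x.2) j) =
          x := by
      intro x _
      rw [Function.update_idem, Function.update_eq_self, Function.update_self]
    exact Finset.sum_nbij' (fun x => (Function.update x.1 j x.2, x.1 j))
      (fun x => (Function.update x.1 j x.2, x.1 j)) hmem hmem hinv hinv (fun x _ => rfl)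
  rw [h1, Finset.sum_product]
  rw [Finset.mul_sum]
  refine Finset.sum_congr rfl fun g _ => ?_
  change ∑ _y ∈ c j, F g = _
  rw [Finset.sum_const, nsmul_eq_mul]

/-- Cauchy-Schwarz for one doubled coordinate -/
theorem double {ι : Type} [Fintype ι] [DecidableEq ι] (c : ι → Finset V) (j k : ι) (hjk : j ≠ k)
    (hc : c j = c k) (hn : ∀ i, (c i).Nonempty) (a : (ι → V) → ℝ)
    (ha : ∀ g y, a (Function.update g k y) = a g) :
    (∑ g ∈ Fintype.piFinset c, a g) ^ 2 ≤ (∏ i, ((c i).card : ℝ)) *
      ∑ g ∈ Fintype.piFinset c, a g * a (Function.update g j (g k)) := by
  have hn0 : (0 : ℝ) < (c j).card := by exact_mod_cast (hn j).card_pos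
  obtain ⟨r, hr⟩ : ∃ r : (ι → V) → ℝ, ∀ g, r g = ∑ x ∈ c j, a (Function.update g j x) :=
    ⟨_, fun _ => rfl⟩
  have h1 : ∑ g ∈ Fintype.piFinset c, r g = (c j).card * ∑ g ∈ Fintype.piFinset c, a g := by
    rw [← resample c j a]
    exact Finset.sum_congr rfl fun g _ => hr g
  have h2 : ∑ g ∈ Fintype.piFinset c, r g * a (Function.update g j (g k)) = (c j).card *
      ∑ g ∈ Fintype.piFinset c, a g * a (Function.update g j (g k)) := by
    rw [← resample c j (fun g => a g * a (Function.update g j (g k)))]
    refine Finset.sum_congr rfl fun g _ => ?_
    rw [hr, Finset.sum_mul]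
    refine Finset.sum_congr rfl fun x _ => ?_
    rw [Function.update_idem, Function.update_of_ne hjk.symm]
  have h3 : ∑ g ∈ Fintype.piFinset c, r g ^ 2 = (c j).card *
      ∑ g ∈ Fintype.piFinset c, r g * a (Function.update g j (g k)) := by
    rw [hc, ← resample c k (fun g => r g * a (Function.update g j (g k)))]
    refine Finset.sum_congr rfl fun g _ => ?_
    have e1 : ∀ y, r (Function.update g k y) = r g := by
      intro y
      rw [hr, hr]
      refine Finset.sum_congr rfl fun x _ => ?_
      rw [Function.update_comm hjk.symm, ha]
    have e2 : r g = ∑ x ∈ c k, a (Function.update g j x) := by rw [hr, hc]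
    calc r g ^ 2 = r g * ∑ x ∈ c k, a (Function.update g j x) := by rw [← e2, pow_two]
      _ = ∑ x ∈ c k, r g * a (Function.update g j x) := Finset.mul_sum _ _ _
      _ = _ := by
          refine Finset.sum_congr rfl fun x _ => ?_
          rw [e1, Function.update_self, Function.update_comm hjk.symm, ha]
  have h4 : (∑ g ∈ Fintype.piFinset c, r g) ^ 2 ≤
      ((Fintype.piFinset c).card : ℝ) * ∑ g ∈ Fintype.piFinset c, r g ^ 2 :=
    sq_sum_le_card_mul_sum_sq
  rw [h1, h3, h2, card_box] at h4
  have h5 : (0 : ℝ) < ((c j).card : ℝ) ^ 2 := by positivity
  refine le_of_mul_le_mul_left ?_ h5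
  nlinarith [h4]

end

theorem e_blo (e02 : StmtE02) : StmtE20 := by
  intro V _ _ ι _ c P d hc hd hdP
  classical
  obtain ⟨c', hc'⟩ : ∃ c' : ι × Bool → Finset V, ∀ z, c' z = c z.1 := ⟨_, fun _ => rfl⟩
  have hcc : (fun z : ι × Bool => c z.1) = c' := funext fun z => (hc' z).symm
  rw [hcc]
  have hne : ∀ z, (c' z).Nonempty := fun z => by rw [hc']; exact hc _
  obtain ⟨Q, hQ⟩ : ∃ Q : Finset ι → (ι × Bool → V) → Prop, ∀ t g, Q t g ↔
      ∀ s : ι → Bool, (∀ i, i ∉ t → s i = false) → P fun i => g (i, s i) :=
    ⟨_, fun _ _ => Iff.rfl⟩
  have key : ∀ t : Finset ι, d ^ (2 ^ t.card) ≤ dens c' (Q t) := by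
    intro t
    induction t using Finset.induction_on with
    | empty =>
      rw [Finset.card_empty, pow_zero, pow_one]
      refine hdP.trans (le_of_eq ?_)
      have h1 := e02 V (ι × Bool) ι c' (fun i => (i, false)) hne
        (fun a b h => (Prod.mk.inj h).1) P
      have h2 : c' ∘ (fun i : ι => (i, false)) = c := funext fun i => hc' _
      rw [h2] at h1
      rw [← h1]
      congr 1
      funext g
      apply propext
      rw [hQ]
      constructor
      · intro h s hs
        have : s = fun _ => false := funext fun i => hs i (Finset.notMem_empty i)
        rw [this]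
        exact h
      · intro h
        exact h (fun _ => false) fun _ _ => rfl
    | insert i t hi ih =>
      rw [Finset.card_insert_of_notMem hi, pow_succ, pow_mul]
      have h0 : (0 : ℝ) ≤ d ^ 2 ^ t.card := by positivity
      refine (pow_le_pow_left₀ h0 ih 2).trans ?_
      have hpos := prod_pos' c' hne
      rw [dens_sum, dens_sum, div_pow, div_le_div_iff₀ (by positivity) hpos]
      have hj : ((i, false) : ι × Bool) ≠ (i, true) := by simp
      have h1 := double c' (i, false) (i, true) hj (by rw [hc', hc']) hne
        (fun g => if Q t g then (1 : ℝ) else 0) (by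
          intro g y
          have : Q t (Function.update g (i, true) y) ↔ Q t g := by
            rw [hQ, hQ]
            refine forall_congr' fun s => forall_congr' fun hs => ?_
            have e : (fun k => Function.update g (i, true) y (k, s k)) =
                fun k => g (k, s k) := by
              funext k
              rw [Function.update_of_ne]
              intro h
              have h3 := (Prod.mk.inj h)
              rw [h3.1, hs i hi] at h3
              exact Bool.false_ne_true h3.2
            rw [e]
          simp only [this])
      have h2 : ∀ g : ι × Bool → V,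
          (if Q t g then (1 : ℝ) else 0) *
            (if Q t (Function.update g (i, false) (g (i, true))) then (1 : ℝ) else 0) =
          if Q (insert i t) g then (1 : ℝ) else 0 := by
        intro g
        have h3 : Q (insert i t) g ↔ Q t g ∧
            Q t (Function.update g (i, false) (g (i, true))) := by
          rw [hQ, hQ, hQ]
          constructor
          · intro h
            refine ⟨fun s hs => h s fun k hk => hs k fun h' => hk (Finset.mem_insert_of_mem h'),
              fun s hs => ?_⟩
            have h4 := h (Function.update s i true) (by
              intro k hk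
              rw [Finset.mem_insert, not_or] at hk
              rw [Function.update_of_ne hk.1]
              exact hs k hk.2)
            have e : (fun k => g (k, Function.update s i true k)) =
                fun k => Function.update g (i, false) (g (i, true)) (k, s k) := by
              funext k
              by_cases hk : k = i
              · subst hk
                rw [hs k hi, Function.update_self, Function.update_self]
              · rw [Function.update_of_ne hk, Function.update_of_ne]
                intro h'
                exact hk (Prod.mk.inj h').1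
            rwa [e] at h4
          · rintro ⟨h4, h5⟩ s hs
            by_cases hsi : s i = false
            · apply h4
              intro k hk
              by_cases hki : k = i
              · rw [hki, hsi]
              · exact hs k (by rw [Finset.mem_insert, not_or]; exact ⟨hki, hk⟩)
            · have hsi' : s i = true := by simpa using hsi
              have h6 := h5 (Function.update s i false) (by
                intro k hk
                by_cases hki : k = i
                · rw [hki, Function.update_self]
                · rw [Function.update_of_ne hki]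
                  exact hs k (by rw [Finset.mem_insert, not_or]; exact ⟨hki, hk⟩))
              have e : (fun k => Function.update g (i, false) (g (i, true))
                  (k, Function.update s i false k)) = fun k => g (k, s k) := by
                funext k
                by_cases hk : k = i
                · subst hk
                  rw [Function.update_self, Function.update_self, hsi']
                · rw [Function.update_of_ne hk, Function.update_of_ne]
                  intro h'
                  exact hk (Prod.mk.inj h').1
              rwa [e] at h6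
        by_cases ha : Q t g
        · by_cases hb : Q t (Function.update g (i, false) (g (i, true)))
          · rw [if_pos ha, if_pos hb, if_pos (h3.2 ⟨ha, hb⟩), one_mul]
          · rw [if_neg hb, if_neg fun h => hb (h3.1 h).2, mul_zero]
        · rw [if_neg ha, if_neg fun h => ha (h3.1 h).1, zero_mul]
      rw [Finset.sum_congr rfl fun g _ => h2 g] at h1
      calc (∑ f ∈ Fintype.piFinset c', if Q t f then (1 : ℝ) else 0) ^ 2 *
            ∏ z, ((c' z).card : ℝ)
          ≤ ((∏ z, ((c' z).card : ℝ)) *
            ∑ g ∈ Fintype.piFinset c', if Q (insert i t) g then (1 : ℝ) else 0) *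
            ∏ z, ((c' z).card : ℝ) := mul_le_mul_of_nonneg_right h1 hpos.le
        _ = _ := by ring
  have h := key Finset.univ
  rw [Finset.card_univ] at h
  refine h.trans (le_of_eq ?_)
  congr 1
  funext g
  apply propext
  rw [hQ]
  constructor
  · intro h' s
    exact h' s fun i hi => absurd (Finset.mem_univ i) hi
  · intro h' s _
    exact h' s

end Pool.Agent.KK.E.H94
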